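import Pool.Agent.helper81.EP.SpecK

/-!
# Module KC of project ep: square roots of `1/3` modulo powers of a prime `l ≡ ±1 mod 12`
-/

set_option autoImplicit false

namespace Pool.Agent.EP

theorem KC_two : ¬ IsSquare ((2 : ℕ) : ZMod 3) := by
  decide

theorem KC_sq (l : ℕ) (hl : l.Prime) (h12 : l % 12 = 1 ∨ l % 12 = 11) :
    IsSquare ((3 : ℕ) : ZMod l) := by
  have hf : Fact l.Prime := ⟨hl⟩
  have h3 : Fact (Nat.Prime 3) := ⟨Nat.prime_three⟩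
  rcases h12 with h | h
  · have h4 : l % 4 = 1 := by omega
    rw [ZMod.exists_sq_eq_prime_iff_of_mod_four_eq_one h4 (by norm_num : (3 : ℕ) ≠ 2)]
    have h5 : ((l : ℕ) : ZMod 3) = ((1 : ℕ) : ZMod 3) :=
      (ZMod.natCast_eq_natCast_iff' l 1 3).2 (by omega)
    rw [h5]
    exact ⟨1, by norm_num⟩
  · have h4 : l % 4 = 3 := by omega
    have h3l : l ≠ 3 := by
      rintro rfl
      norm_num at h
    rw [ZMod.exists_sq_eq_prime_iff_of_mod_four_eq_three h4 (by norm_num : (3 : ℕ) % 4 = 3) h3l]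
    have h5 : ((l : ℕ) : ZMod 3) = ((2 : ℕ) : ZMod 3) :=
      (ZMod.natCast_eq_natCast_iff' l 2 3).2 (by omega)
    rw [h5]
    exact KC_two

theorem KC_cop (l : ℕ) (hl : l.Prime) (h12 : l % 12 = 1 ∨ l % 12 = 11) (m : ℕ) (hm : m < 11)
    (hm0 : m ≠ 0) : ¬ (l : ℤ) ∣ (m : ℤ) := by
  intro h
  have h1 : l ∣ m := Int.natCast_dvd_natCast.1 h
  have h2 := Nat.le_of_dvd (Nat.pos_of_ne_zero hm0) h1
  have h3 := hl.two_le
  omega

/-- Hensel lifting -/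
theorem KC_hensel (l : ℕ) (hl : l.Prime) (h12 : l % 12 = 1 ∨ l % 12 = 11) (i : ℕ) :
    ∃ s : ℤ, (l : ℤ) ^ (i + 1) ∣ 3 * s ^ 2 - 1 := by
  have hp : Prime (l : ℤ) := Nat.prime_iff_prime_int.1 hl
  induction i with
  | zero =>
    have hf : Fact l.Prime := ⟨hl⟩
    obtain ⟨r, hr⟩ := KC_sq l hl h12
    have h3 : ((3 : ℕ) : ZMod l) ≠ 0 := by
      intro h
      have h1 : l ∣ 3 := (ZMod.natCast_eq_zero_iff 3 l).1 h
      exact KC_cop l hl h12 3 (by norm_num) (by norm_num) (Int.natCast_dvd_natCast.2 h1)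
    have hr0 : r ≠ 0 := by
      rintro rfl
      apply h3
      rw [hr, zero_mul]
    obtain ⟨s, hs⟩ := ZMod.intCast_surjective r⁻¹
    refine ⟨s, ?_⟩
    rw [zero_add, pow_one, ← ZMod.intCast_zmod_eq_zero_iff_dvd]
    push_cast
    rw [hs]
    have h4 : (3 : ZMod l) = r * r := by
      rw [← hr]
      norm_num
    rw [h4]
    field_simp
    ring
  | succ i ih =>
    obtain ⟨s, k, hk⟩ := ih
    have hls : ¬ (l : ℤ) ∣ s := by
      intro h
      have h1 : (l : ℤ) ∣ 3 * s ^ 2 - 1 := by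
        rw [hk]
        exact Dvd.dvd.mul_right (dvd_pow_self _ (Nat.succ_ne_zero i)) _
      have h2 : (l : ℤ) ∣ 3 * s ^ 2 := Dvd.dvd.mul_left (dvd_pow h two_ne_zero) 3
      have h3 : (l : ℤ) ∣ 1 := by
        have := dvd_sub h2 h1
        have e : 3 * s ^ 2 - (3 * s ^ 2 - 1) = 1 := by ring
        rwa [e] at this
      exact hp.not_dvd_one h3
    have hcop : IsCoprime (6 * s) (l : ℤ) := by
      rw [isCoprime_comm, (Prime.irreducible hp).coprime_iff_not_dvd]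
      intro h
      rcases hp.dvd_or_dvd h with h | h
      · exact KC_cop l hl h12 6 (by norm_num) (by norm_num) h
      · exact hls h
    obtain ⟨u, v, huv⟩ := hcop
    refine ⟨s + (l : ℤ) ^ (i + 1) * (-k * u), ?_⟩
    refine ⟨k * v + 3 * (l : ℤ) ^ i * (k * u) ^ 2, ?_⟩
    have h1 : 3 * (s + (l : ℤ) ^ (i + 1) * (-k * u)) ^ 2 - 1 =
        (3 * s ^ 2 - 1) - (l : ℤ) ^ (i + 1) * k * (u * (6 * s)) +
          3 * (l : ℤ) ^ (i + 1) * (l : ℤ) ^ (i + 1) * (k * u) ^ 2 := by ring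
    have h2 : u * (6 * s) = 1 - v * l := by linarith
    rw [h1, hk, h2]
    ring

theorem KC : KC_stmt := by
  intro l hl h12 i hi
  have hp : Prime (l : ℤ) := Nat.prime_iff_prime_int.1 hl
  obtain ⟨j, rfl⟩ : ∃ j, i = j + 1 := ⟨i - 1, by omega⟩
  obtain ⟨s, hs⟩ := KC_hensel l hl h12 j
  have h1 : (l : ℤ) ∣ 3 * s ^ 2 - 1 := (dvd_pow_self _ (Nat.succ_ne_zero j)).trans hs
  have hls : ¬ (l : ℤ) ∣ s := by
    intro h
    have h2 : (l : ℤ) ∣ 3 * s ^ 2 := Dvd.dvd.mul_left (dvd_pow h two_ne_zero) 3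
    have h3 : (l : ℤ) ∣ 1 := by
      have := dvd_sub h2 h1
      have e : 3 * s ^ 2 - (3 * s ^ 2 - 1) = 1 := by ring
      rwa [e] at this
    exact hp.not_dvd_one h3
  have h2l : ¬ (l : ℤ) ∣ 2 := KC_cop l hl h12 2 (by norm_num) (by norm_num)
  have h3l : ¬ (l : ℤ) ∣ 3 := KC_cop l hl h12 3 (by norm_num) (by norm_num)
  refine ⟨s, hls, ?_⟩
  intro b w
  have key : (4 : ℤ) ^ b - 3 * w ^ 2 =
      3 * ((w - 2 ^ b * s) * (-(w + 2 ^ b * s))) - 4 ^ b * (3 * s ^ 2 - 1) := by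
    have e : (4 : ℤ) ^ b = 2 ^ b * 2 ^ b := by
      rw [← mul_pow]
      norm_num
    rw [e]
    ring
  have hdiv : (l : ℤ) ^ (j + 1) ∣ 4 ^ b - 3 * w ^ 2 ↔
      (l : ℤ) ^ (j + 1) ∣ 3 * ((w - 2 ^ b * s) * (-(w + 2 ^ b * s))) := by
    rw [key]
    exact dvd_sub_left (Dvd.dvd.mul_left hs _)
  rw [hdiv]
  have hnot : ¬ ((l : ℤ) ∣ w - 2 ^ b * s ∧ (l : ℤ) ∣ w + 2 ^ b * s) := by
    rintro ⟨ha, hb⟩
    have h4 : (l : ℤ) ∣ 2 * (2 ^ b * s) := by
      have := dvd_sub hb ha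
      have e : w + 2 ^ b * s - (w - 2 ^ b * s) = 2 * (2 ^ b * s) := by ring
      rwa [e] at this
    rcases hp.dvd_or_dvd h4 with h | h
    · exact h2l h
    · rcases hp.dvd_or_dvd h with h | h
      · exact h2l (hp.dvd_of_dvd_pow h)
      · exact hls h
  constructor
  · intro h
    have c3 : IsCoprime ((l : ℤ) ^ (j + 1)) 3 :=
      IsCoprime.pow_left (((Prime.irreducible hp).coprime_iff_not_dvd).2 h3l)
    have h4 := c3.dvd_of_dvd_mul_left h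
    by_cases ha : (l : ℤ) ∣ w - 2 ^ b * s
    · have hb : ¬ (l : ℤ) ∣ w + 2 ^ b * s := fun hb => hnot ⟨ha, hb⟩
      have hb' : ¬ (l : ℤ) ∣ -(w + 2 ^ b * s) := fun h => hb ((dvd_neg).1 h)
      have c4 : IsCoprime ((l : ℤ) ^ (j + 1)) (-(w + 2 ^ b * s)) :=
        IsCoprime.pow_left (((Prime.irreducible hp).coprime_iff_not_dvd).2 hb')
      exact Or.inl (c4.dvd_of_dvd_mul_right h4)
    · have c4 : IsCoprime ((l : ℤ) ^ (j + 1)) (w - 2 ^ b * s) :=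
        IsCoprime.pow_left (((Prime.irreducible hp).coprime_iff_not_dvd).2 ha)
      exact Or.inr ((dvd_neg).1 (c4.dvd_of_dvd_mul_left h4))
  · rintro (h | h)
    · exact Dvd.dvd.mul_left (Dvd.dvd.mul_right h _) _
    · exact Dvd.dvd.mul_left (Dvd.dvd.mul_left ((dvd_neg).2 h) _) _

end Pool.Agent.EP
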